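import Pool.Agent.Lib.MP_a9445a_lc.Mg.G130
import Pool.Agent.Lib.MP_a9445a_lc.Mg.G132
import Pool.Agent.Lib.MP_a9445a_lc.Mg.G131

/-! The expected cost of the loop for `Y`. -/

set_option autoImplicit false

open Finset

namespace Pool.Agent.MPa9445a.GL

open Pool.Agent.MPa9445a.SN (Fm rs kb)

variable {n : ℕ}

/-- PROOF. `AA n ≤ 8 (n + 2)`, `LL n ≤ 2 (n + 2) ^ 4`. -/
theorem arith_Y (n : ℕ) : 16 * (64 * LL n * (2 + AA n ^ 3 * LL n ^ 2)) ≤ 2 ^ 20 * (n + 2) ^ 60 := by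
  have h1 : LL n ≤ 2 * (n + 2) ^ 4 := by
    unfold LL
    have : n ^ 4 + 16 ≤ (n + 2) ^ 4 := by
      have e : (n + 2) ^ 4 = n ^ 4 + 16 + (8 * n ^ 3 + 24 * n ^ 2 + 32 * n) := by ring
      omega
    omega
  have h2 : AA n ≤ 8 * (n + 2) := by
    unfold AA
    omega
  set x := n + 2 with hx
  have hx2 : 2 ≤ x := by omega
  have hx1 : 1 ≤ x := by omega
  have h3 : AA n ^ 3 * LL n ^ 2 ≤ 2 ^ 11 * x ^ 11 := by
    calc AA n ^ 3 * LL n ^ 2 ≤ (8 * x) ^ 3 * (2 * x ^ 4) ^ 2 :=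
          Nat.mul_le_mul (Nat.pow_le_pow_left h2 3) (Nat.pow_le_pow_left h1 2)
      _ = 2 ^ 11 * x ^ 11 := by ring
  have h4 : 2 + AA n ^ 3 * LL n ^ 2 ≤ 2 ^ 12 * x ^ 11 := by
    have : 1 ≤ x ^ 11 := Nat.one_le_pow _ _ hx1
    omega
  calc 16 * (64 * LL n * (2 + AA n ^ 3 * LL n ^ 2))
      ≤ 16 * (64 * (2 * x ^ 4) * (2 ^ 12 * x ^ 11)) := by gcongr
    _ = 2 ^ 20 * (x ^ 15 * 2 ^ 3) := by ring
    _ ≤ 2 ^ 20 * (x ^ 15 * x ^ 45) := by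
        have : 2 ^ 3 ≤ x ^ 45 := by
          calc 2 ^ 3 ≤ 2 ^ 45 := by norm_num
            _ ≤ x ^ 45 := Nat.pow_le_pow_left hx2 45
        gcongr
    _ = 2 ^ 20 * x ^ 60 := by ring

/-- PROOF. Let `N = #Lv W r t`, `m' = #Fr r`, `g = γ (k + 1)`, `g ^ 2 = 1 + γ k`. `SN.markov` with `φ X = cD … (X ∩ Fr r)`, `I = K`, `a = B + 1`; with `sum_inter`: `#bad * (B + 1) * 2 ^ m' ≤ #Fm * K * ∑ D ∈ (Fr r).powerset, cD … D`. By `sum_cD` (`s = r`, `p = t = c`)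
the sum is at most `2 * pl n k * LL n * (2 g ^ (2 m') + T ^ 2)`. With `K * N ≤ 32 * 2 ^ m'`, `g ^ (2 m') ≤ g ^ (2 m) ≤ g ^ m * N`, `T ^ 2 ≤ (AA LL N) ^ 2 ≤ AA ^ 3 LL ^ 2 N g ^ m`: `K * ∑ ≤ 2 ^ m' * 64 * pl n k * LL n * (2 + AA ^ 3 LL ^ 2) * g ^ m ≤ 2 ^ m' * B / 16` (`arith_Y`, `pl n (k + 1) = 2 ^ 20 * (n + 2) ^ 60 * pl n k`). -/
theorem cost_Y {W : Matrix (Fin n) (Fin n) ℤ} {k : ℕ} {ω' : Sds n k} (hG : Good W k ω') {r : Vc n}
    (hr : St r) {t : ℤ} {q : ℝ} (hq : 1 ≤ q) {m : ℕ} (hm : (Fr r).card ≤ m)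
    (hN : γ (k + 1) ^ m ≤ (Lv W r t).card) (hN' : ((Lv W r t).card : ℝ) ≤ AA n * γ (k + 1) ^ m)
    (hT : T W r t q ≤ AA n * LL n * (Lv W r t).card) {K : ℕ}
    (hK : K * (Lv W r t).card ≤ 32 * 2 ^ (Fr r).card) {B : ℕ}
    (hB : (pl n (k + 1) : ℝ) * γ (k + 1) ^ m ≤ B) :
    (univ.filter fun ω : Fm n => ¬ ∑ κ ∈ range K, cD W (Ok W k ω') r t (Dk r ω κ) ≤ B).card * 16 ≤
      Fintype.card (Fm n) := by
  set N := (Lv W r t).card with hNdef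
  set m' := (Fr r).card with hm'
  set g := γ (k + 1) with hg
  have g1 : 1 ≤ g := γ_one (k + 1)
  have gsq : g ^ 2 = 1 + γ k := γ_sq k
  have gm1 : 1 ≤ g ^ m := one_le_pow₀ g1
  have hNpos : (0 : ℝ) < N := by linarith
  have hTn : 0 ≤ T W r t q := T_nonneg W r t hq
  -- the sum of the costs
  have hsum := sum_cD hG hr (Res_refl r) (p := t) (t := t) (c := t) (by ring) hq
  set Sg := ∑ D ∈ (Fr r).powerset, cD W (Ok W k ω') r t D with hSg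
  have hSgr : (Sg : ℝ) ≤ 2 * pl n k * LL n * (2 * (1 + γ k) ^ m' + T W r t q * T W r t q) := by
    have : (Sg : ℝ) = ∑ D ∈ (Fr r).powerset, (cD W (Ok W k ω') r t D : ℝ) := by
      rw [hSg]; push_cast; rfl
    rw [this]; exact hsum
  have hpow : (1 + γ k) ^ m' ≤ g ^ m * N := by
    rw [← gsq, ← pow_mul]
    calc g ^ (2 * m') ≤ g ^ (2 * m) := pow_le_pow_right₀ g1 (by omega)
      _ = g ^ m * g ^ m := by rw [← pow_add]; congr 1; ring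
      _ ≤ g ^ m * N := by gcongr
  have hTT : T W r t q * T W r t q ≤ (AA n : ℝ) ^ 3 * (LL n : ℝ) ^ 2 * (g ^ m * N) := by
    calc T W r t q * T W r t q ≤ (AA n * LL n * N) * (AA n * LL n * N) :=
          mul_le_mul hT hT hTn (by positivity)
      _ = (AA n : ℝ) ^ 2 * (LL n : ℝ) ^ 2 * N * N := by ring
      _ ≤ (AA n : ℝ) ^ 2 * (LL n : ℝ) ^ 2 * N * (AA n * g ^ m) :=
          mul_le_mul_of_nonneg_left hN' (by positivity)
      _ = (AA n : ℝ) ^ 3 * (LL n : ℝ) ^ 2 * (g ^ m * N) := by ring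
  have hSg2 : (Sg : ℝ) ≤ 2 * pl n k * LL n * (2 + (AA n : ℝ) ^ 3 * (LL n : ℝ) ^ 2) * (g ^ m * N) := by
    calc (Sg : ℝ) ≤ 2 * pl n k * LL n * (2 * (1 + γ k) ^ m' + T W r t q * T W r t q) := hSgr
      _ ≤ 2 * pl n k * LL n * (2 * (g ^ m * N) + (AA n : ℝ) ^ 3 * (LL n : ℝ) ^ 2 * (g ^ m * N)) :=
          mul_le_mul_of_nonneg_left (by linarith) (by positivity)
      _ = _ := by ring
  have hKS : (K : ℝ) * Sg * 16 ≤ 2 ^ m' * B := by
    have hKr : (K : ℝ) * N ≤ 32 * 2 ^ m' := by exact_mod_cast hK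
    have har : (16 * (64 * LL n * (2 + AA n ^ 3 * LL n ^ 2)) : ℝ) ≤ 2 ^ 20 * (n + 2) ^ 60 := by
      exact_mod_cast arith_Y n
    have hpl : (pl n (k + 1) : ℝ) = 2 ^ 20 * (n + 2) ^ 60 * pl n k := by
      simp only [pl]; push_cast; ring
    have hP : (0 : ℝ) ≤ pl n k := Nat.cast_nonneg _
    have hL : (0 : ℝ) ≤ LL n := Nat.cast_nonneg _
    have hA : (0 : ℝ) ≤ AA n := Nat.cast_nonneg _
    have hK0 : (0 : ℝ) ≤ K := Nat.cast_nonneg _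
    rw [hpl] at hB
    generalize (2 : ℝ) ^ 20 * ((n : ℝ) + 2) ^ 60 = Q at har hB
    generalize (pl n k : ℝ) = P at hP hB hSg2
    generalize (LL n : ℝ) = L at har hL hSg2
    generalize (AA n : ℝ) = A at har hA hSg2
    have hX : 0 ≤ 2 * P * L * (2 + A ^ 3 * L ^ 2) := by positivity
    have hgm : 0 ≤ g ^ m := by linarith
    have s1 : (K : ℝ) * Sg ≤ K * (2 * P * L * (2 + A ^ 3 * L ^ 2) * (g ^ m * N)) :=
      mul_le_mul_of_nonneg_left hSg2 hK0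
    have s2 : (K : ℝ) * (2 * P * L * (2 + A ^ 3 * L ^ 2) * (g ^ m * N)) ≤
        (32 * 2 ^ m') * (2 * P * L * (2 + A ^ 3 * L ^ 2) * g ^ m) := by
      have := mul_le_mul_of_nonneg_right hKr (mul_nonneg hX hgm)
      calc (K : ℝ) * (2 * P * L * (2 + A ^ 3 * L ^ 2) * (g ^ m * N)) =
          (K * N) * (2 * P * L * (2 + A ^ 3 * L ^ 2) * g ^ m) := by ring
        _ ≤ _ := this
    have s3 : (16 * (64 * L * (2 + A ^ 3 * L ^ 2))) * (P * g ^ m) ≤ Q * (P * g ^ m) :=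
      mul_le_mul_of_nonneg_right har (mul_nonneg hP hgm)
    have s4 : Q * (P * g ^ m) ≤ B := by linarith [hB, show Q * (P * g ^ m) = Q * P * g ^ m by ring]
    have s5 : (16 * (64 * L * (2 + A ^ 3 * L ^ 2))) * (P * g ^ m) ≤ B := s3.trans s4
    have s6 := mul_le_mul_of_nonneg_left s5 (show (0 : ℝ) ≤ 2 ^ m' by positivity)
    calc (K : ℝ) * Sg * 16 ≤ (32 * 2 ^ m') * (2 * P * L * (2 + A ^ 3 * L ^ 2) * g ^ m) * 16 := by
          linarith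
      _ = 2 ^ m' * ((16 * (64 * L * (2 + A ^ 3 * L ^ 2))) * (P * g ^ m)) := by ring
      _ ≤ 2 ^ m' * B := s6
  -- Markov
  have hmk := SN.markov (n := n) (fun X => cD W (Ok W k ω') r t (X ∩ Fr r)) K (B + 1)
  have hsi := sum_inter r (fun D => cD W (Ok W k ω') r t D)
  have hcong : (univ.filter fun ω : Fm n => ¬ ∑ κ ∈ range K, cD W (Ok W k ω') r t (Dk r ω κ) ≤ B).card
      = (univ.filter fun ω : Fm n =>
          B + 1 ≤ ∑ i ∈ range K, (fun X => cD W (Ok W k ω') r t (X ∩ Fr r)) (rs ω i)).card := by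
    congr 1
    ext ω
    simp only [mem_filter, mem_univ, true_and, not_le, Dk]
    exact Nat.lt_iff_add_one_le
  rw [hcong]
  set bad := (univ.filter fun ω : Fm n =>
          B + 1 ≤ ∑ i ∈ range K, (fun X => cD W (Ok W k ω') r t (X ∩ Fr r)) (rs ω i)).card with hbad
  set F := Fintype.card (Fm n) with hF
  set S1 := ∑ X, (fun X => cD W (Ok W k ω') r t (X ∩ Fr r)) X with hS1
  have e1 : S1 * 2 ^ m' = 2 ^ n * Sg := hsi
  -- multiply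
  have h1 : bad * (B + 1) * 2 ^ m' ≤ F * (K * Sg) := by
    have : (2 ^ n) * (bad * (B + 1) * 2 ^ m') ≤ (2 ^ n) * (F * (K * Sg)) := by
      calc (2 ^ n) * (bad * (B + 1) * 2 ^ m') = (bad * ((B + 1) * 2 ^ n)) * 2 ^ m' := by ring
        _ ≤ (F * (K * S1)) * 2 ^ m' := Nat.mul_le_mul_right _ hmk
        _ = F * (K * (S1 * 2 ^ m')) := by ring
        _ = F * (K * (2 ^ n * Sg)) := by rw [e1]
        _ = (2 ^ n) * (F * (K * Sg)) := by ring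
    exact Nat.le_of_mul_le_mul_left this (by positivity)
  have h2 : (bad : ℝ) * (B + 1) * 2 ^ m' ≤ F * (K * Sg) := by exact_mod_cast h1
  have h3 : (bad : ℝ) * 16 * ((B + 1) * 2 ^ m') ≤ F * ((B + 1) * 2 ^ m') := by
    calc (bad : ℝ) * 16 * ((B + 1) * 2 ^ m') = (bad * (B + 1) * 2 ^ m') * 16 := by ring
      _ ≤ (F * (K * Sg)) * 16 := by gcongr
      _ = F * (K * Sg * 16) := by ring
      _ ≤ F * (2 ^ m' * B) := by gcongr
      _ ≤ F * ((B + 1) * 2 ^ m') := by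
          have : (2 : ℝ) ^ m' * B ≤ (B + 1) * 2 ^ m' := by nlinarith [show (0:ℝ) < 2 ^ m' by positivity]
          gcongr
  have h4 : (bad : ℝ) * 16 ≤ F := le_of_mul_le_mul_right h3 (by positivity)
  exact_mod_cast h4

end Pool.Agent.MPa9445a.GL
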