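import Pool.Agent.Lib.MP_a9445a_lc.Mg.G132

/-! The expected cost of the main loop. -/

set_option autoImplicit false

open Finset

namespace Pool.Agent.MPa9445a.GL

variable {n : ℕ}

/-- PROOF. `AA n ≤ 8 (n + 2)`, `LL n ≤ 2 (n + 2) ^ 4`, `Rn n ≤ 96 (n + 2)`. -/
theorem arith_H (n : ℕ) : 16 * (8 * Rn n * LL n * (2 + AA n * LL n ^ 2)) ≤ 2 ^ 20 * (n + 2) ^ 60 := by
  have h1 : LL n ≤ 2 * (n + 2) ^ 4 := by
    unfold LL
    have : n ^ 4 + 16 ≤ (n + 2) ^ 4 := by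
      have e : (n + 2) ^ 4 = n ^ 4 + 16 + (8 * n ^ 3 + 24 * n ^ 2 + 32 * n) := by ring
      omega
    omega
  have h2 : AA n ≤ 8 * (n + 2) := by
    unfold AA
    omega
  have h0 : Rn n ≤ 96 * (n + 2) := by
    unfold Rn
    omega
  set x := n + 2 with hx
  have hx2 : 2 ≤ x := by omega
  have hx1 : 1 ≤ x := by omega
  have h3 : AA n * LL n ^ 2 ≤ 2 ^ 5 * x ^ 9 := by
    calc AA n * LL n ^ 2 ≤ (8 * x) * (2 * x ^ 4) ^ 2 :=
          Nat.mul_le_mul h2 (Nat.pow_le_pow_left h1 2)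
      _ = 2 ^ 5 * x ^ 9 := by ring
  have h4 : 2 + AA n * LL n ^ 2 ≤ 2 ^ 6 * x ^ 9 := by
    have : 1 ≤ x ^ 9 := Nat.one_le_pow _ _ hx1
    omega
  calc 16 * (8 * Rn n * LL n * (2 + AA n * LL n ^ 2))
      ≤ 16 * (8 * (96 * x) * (2 * x ^ 4) * (2 ^ 6 * x ^ 9)) := by gcongr
    _ = 2 ^ 20 * (x ^ 14 * (3 / 2 * 1)) + 2 ^ 19 * x ^ 14 := by
        have : (3 / 2 * 1 : ℕ) = 1 := rfl
        rw [this]; ring
    _ ≤ 2 ^ 20 * (x ^ 14 * x ^ 46) := by
        have h5 : 2 ^ 46 ≤ x ^ 46 := Nat.pow_le_pow_left hx2 46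
        have h6 : 2 ≤ x ^ 46 := le_trans (by norm_num) h5
        have h7 : 2 ^ 20 * (x ^ 14 * (3 / 2 * 1)) + 2 ^ 19 * x ^ 14 ≤ 2 ^ 20 * (x ^ 14 * 2) := by
          have : (3 / 2 * 1 : ℕ) = 1 := rfl
          rw [this]; omega
        exact h7.trans (Nat.mul_le_mul_left _ (Nat.mul_le_mul_left _ h6))
    _ = 2 ^ 20 * x ^ 60 := by ring

/-- PROOF. Let `N = #Lv W r t`, `m = #Fr s`, `g = γ (k + 1)`. Markov: `#bad * (B + 1) ≤ ∑ h, ∑ w, ∑ i, cD … (Dw …)`; by `sum_Dw` `2 ^ m` times the sum is `2 ^ #lo * Rn n * #Sh * ∑ D ∈ (Fr s).powerset, cD … D` and by `sum_cD` the last sum is at most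
`2 * pl n k * LL n * (2 g ^ (2 m) + T s p q * T r t q)`. With `2 ^ #lo * N ≤ 4 * 2 ^ m`, `g ^ (2 m) ≤ g ^ m * N ≤ M * N`, `T s p q * T r t q ≤ LL * M * AA * LL * N`: `#bad * (B + 1) ≤ #Sh * 8 * Rn n * pl n k * LL n * (2 + AA LL ^ 2) * M ≤ #Sh * B / 16` (`arith_H`). -/
theorem cost_H {W : Matrix (Fin n) (Fin n) ℤ} {k : ℕ} {ω' : Sds n k} (hG : Good W k ω') {s r : Vc n}
    (hs : St s) (h : Res s r) {p t c : ℤ} (hc : 2 * c = p + t) {q : ℝ} (hq : 1 ≤ q)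
    (hN : γ (k + 1) ^ (Fr s).card ≤ (Lv W r t).card)
    (hT : T W r t q ≤ AA n * LL n * (Lv W r t).card) {j : ℕ}
    (hlo : 2 ^ (lo s j).card * (Lv W r t).card ≤ 4 * 2 ^ (Fr s).card) {M : ℝ}
    (hM : T W s p q ≤ LL n * M) (hγ : γ (k + 1) ^ (Fr s).card ≤ M) {B : ℕ}
    (hB : (pl n (k + 1) : ℝ) * M ≤ B) (A : Mx n) :
    (univ.filter fun h : Sh n => ¬ ∑ w ∈ (lo s j).powerset, ∑ i,
      cD W (Ok W k ω') r c (Dw s A h j w i) ≤ B).card * 16 ≤ Fintype.card (Sh n) := by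
  classical
  set N := (Lv W r t).card with hNdef
  set m := (Fr s).card with hm
  set g := γ (k + 1) with hg
  have g1 : 1 ≤ g := γ_one (k + 1)
  have gsq : g ^ 2 = 1 + γ k := γ_sq k
  have gm1 : 1 ≤ g ^ m := one_le_pow₀ g1
  have hNpos : (0 : ℝ) < N := by linarith
  have hM0 : 0 ≤ M := by linarith
  have hTr : 0 ≤ T W r t q := T_nonneg W r t hq
  have hTs : 0 ≤ T W s p q := T_nonneg W s p hq
  -- the sum of the costs over all sets
  have hsum := sum_cD hG hs h hc hq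
  set Sg := ∑ D ∈ (Fr s).powerset, cD W (Ok W k ω') r c D with hSg
  have hSgr : (Sg : ℝ) ≤ 2 * pl n k * LL n * (2 * (1 + γ k) ^ m + T W s p q * T W r t q) := by
    have : (Sg : ℝ) = ∑ D ∈ (Fr s).powerset, (cD W (Ok W k ω') r c D : ℝ) := by
      rw [hSg]; push_cast; rfl
    rw [this]; exact hsum
  have hpow : (1 + γ k) ^ m ≤ M * N := by
    rw [← gsq, ← pow_mul]
    calc g ^ (2 * m) = g ^ m * g ^ m := by rw [← pow_add]; congr 1; ring
      _ ≤ M * N := mul_le_mul hγ hN (by linarith) hM0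
  have hTT : T W s p q * T W r t q ≤ (AA n : ℝ) * (LL n : ℝ) ^ 2 * (M * N) := by
    calc T W s p q * T W r t q ≤ (LL n * M) * (AA n * LL n * N) :=
          mul_le_mul hM hT hTr (by positivity)
      _ = (AA n : ℝ) * (LL n : ℝ) ^ 2 * (M * N) := by ring
  have hSg2 : (Sg : ℝ) ≤ 2 * pl n k * LL n * (2 + (AA n : ℝ) * (LL n : ℝ) ^ 2) * (M * N) := by
    calc (Sg : ℝ) ≤ 2 * pl n k * LL n * (2 * (1 + γ k) ^ m + T W s p q * T W r t q) := hSgr
      _ ≤ 2 * pl n k * LL n * (2 * (M * N) + (AA n : ℝ) * (LL n : ℝ) ^ 2 * (M * N)) :=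
          mul_le_mul_of_nonneg_left (by linarith) (by positivity)
      _ = _ := by ring
  -- the number of sets `w`
  set P2 := 2 ^ (lo s j).card with hP2
  have hKS : (P2 : ℝ) * Rn n * Sg * 16 ≤ 2 ^ m * B := by
    have hKr : (P2 : ℝ) * N ≤ 4 * 2 ^ m := by exact_mod_cast hlo
    have har : (16 * (8 * Rn n * LL n * (2 + AA n * LL n ^ 2)) : ℝ) ≤ 2 ^ 20 * (n + 2) ^ 60 := by
      exact_mod_cast arith_H n
    have hpl : (pl n (k + 1) : ℝ) = 2 ^ 20 * (n + 2) ^ 60 * pl n k := by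
      simp only [pl]; push_cast; ring
    have hP : (0 : ℝ) ≤ pl n k := Nat.cast_nonneg _
    have hL : (0 : ℝ) ≤ LL n := Nat.cast_nonneg _
    have hA : (0 : ℝ) ≤ AA n := Nat.cast_nonneg _
    have hR : (0 : ℝ) ≤ Rn n := Nat.cast_nonneg _
    have hP20 : (0 : ℝ) ≤ P2 := Nat.cast_nonneg _
    rw [hpl] at hB
    generalize (2 : ℝ) ^ 20 * ((n : ℝ) + 2) ^ 60 = Q at har hB
    generalize (pl n k : ℝ) = P at hP hB hSg2
    generalize (LL n : ℝ) = L at har hL hSg2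
    generalize (AA n : ℝ) = A' at har hA hSg2
    generalize (Rn n : ℝ) = R at har hR ⊢
    have hX : 0 ≤ 2 * P * L * (2 + A' * L ^ 2) := by positivity
    have s1 : (P2 : ℝ) * R * Sg ≤ P2 * R * (2 * P * L * (2 + A' * L ^ 2) * (M * N)) :=
      mul_le_mul_of_nonneg_left hSg2 (mul_nonneg hP20 hR)
    have s2 : (P2 : ℝ) * R * (2 * P * L * (2 + A' * L ^ 2) * (M * N)) ≤
        (4 * 2 ^ m) * (R * (2 * P * L * (2 + A' * L ^ 2) * M)) := by
      have := mul_le_mul_of_nonneg_right hKr (mul_nonneg hR (mul_nonneg hX hM0))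
      calc (P2 : ℝ) * R * (2 * P * L * (2 + A' * L ^ 2) * (M * N)) =
          (P2 * N) * (R * (2 * P * L * (2 + A' * L ^ 2) * M)) := by ring
        _ ≤ _ := this
    have s3 : (16 * (8 * R * L * (2 + A' * L ^ 2))) * (P * M) ≤ Q * (P * M) :=
      mul_le_mul_of_nonneg_right har (mul_nonneg hP hM0)
    have s4 : Q * (P * M) ≤ B := by linarith [hB, show Q * (P * M) = Q * P * M by ring]
    have s5 : (16 * (8 * R * L * (2 + A' * L ^ 2))) * (P * M) ≤ B := s3.trans s4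
    have s6 := mul_le_mul_of_nonneg_left s5 (show (0 : ℝ) ≤ 2 ^ m by positivity)
    calc (P2 : ℝ) * R * Sg * 16 ≤ (4 * 2 ^ m) * (R * (2 * P * L * (2 + A' * L ^ 2) * M)) * 16 := by
          linarith
      _ = 2 ^ m * ((16 * (8 * R * L * (2 + A' * L ^ 2))) * (P * M)) := by ring
      _ ≤ 2 ^ m * B := s6
  -- the sum over the shifts
  set F := Fintype.card (Sh n) with hF
  have htot : (∑ h : Sh n, ∑ w ∈ (lo s j).powerset, ∑ i,
      cD W (Ok W k ω') r c (Dw s A h j w i)) * 2 ^ m = P2 * Rn n * (F * Sg) := by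
    rw [Finset.sum_comm, Finset.sum_mul]
    have h1 : ∀ w ∈ (lo s j).powerset, (∑ h : Sh n, ∑ i,
        cD W (Ok W k ω') r c (Dw s A h j w i)) * 2 ^ m = Rn n * (F * Sg) := by
      intro w hw
      rw [Finset.sum_comm, Finset.sum_mul]
      rw [Finset.sum_congr rfl fun i _ => sum_Dw s A hw i (fun D => cD W (Ok W k ω') r c D)]
      rw [Finset.sum_const, Finset.card_univ, Fintype.card_fin, smul_eq_mul]
    rw [Finset.sum_congr rfl h1, Finset.sum_const, Finset.card_powerset, smul_eq_mul]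
    ring
  set bad := (univ.filter fun h : Sh n => ¬ ∑ w ∈ (lo s j).powerset, ∑ i,
      cD W (Ok W k ω') r c (Dw s A h j w i) ≤ B).card with hbad
  have hmk : bad * (B + 1) ≤ ∑ h : Sh n, ∑ w ∈ (lo s j).powerset, ∑ i,
      cD W (Ok W k ω') r c (Dw s A h j w i) := by
    calc bad * (B + 1) = ∑ h ∈ univ.filter (fun h : Sh n => ¬ ∑ w ∈ (lo s j).powerset, ∑ i,
          cD W (Ok W k ω') r c (Dw s A h j w i) ≤ B), (B + 1) := by
          rw [Finset.sum_const, smul_eq_mul]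
      _ ≤ ∑ h ∈ univ.filter (fun h : Sh n => ¬ ∑ w ∈ (lo s j).powerset, ∑ i,
          cD W (Ok W k ω') r c (Dw s A h j w i) ≤ B), ∑ w ∈ (lo s j).powerset, ∑ i,
          cD W (Ok W k ω') r c (Dw s A h j w i) := by
          refine Finset.sum_le_sum fun h hh => ?_
          have := (Finset.mem_filter.mp hh).2
          omega
      _ ≤ _ := Finset.sum_le_sum_of_subset (Finset.filter_subset _ _)
  have h2 : (bad : ℝ) * (B + 1) * 2 ^ m ≤ P2 * Rn n * (F * Sg) := by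
    have : bad * (B + 1) * 2 ^ m ≤ P2 * Rn n * (F * Sg) := by
      rw [← htot]; exact Nat.mul_le_mul_right _ hmk
    exact_mod_cast this
  have h3 : (bad : ℝ) * 16 * ((B + 1) * 2 ^ m) ≤ F * ((B + 1) * 2 ^ m) := by
    have hF0 : (0 : ℝ) ≤ F := Nat.cast_nonneg _
    calc (bad : ℝ) * 16 * ((B + 1) * 2 ^ m) = (bad * (B + 1) * 2 ^ m) * 16 := by ring
      _ ≤ (P2 * Rn n * (F * Sg)) * 16 := mul_le_mul_of_nonneg_right h2 (by norm_num)
      _ = F * (P2 * Rn n * Sg * 16) := by ring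
      _ ≤ F * (2 ^ m * B) := mul_le_mul_of_nonneg_left hKS hF0
      _ ≤ F * ((B + 1) * 2 ^ m) := by
          have : (2 : ℝ) ^ m * B ≤ (B + 1) * 2 ^ m := by nlinarith [show (0:ℝ) < 2 ^ m by positivity]
          exact mul_le_mul_of_nonneg_left this hF0
  have h4 : (bad : ℝ) * 16 ≤ F := le_of_mul_le_mul_right h3 (by positivity)
  exact_mod_cast h4

end Pool.Agent.MPa9445a.GL
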