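import Pool.Agent.Lib.MP_a9445a_lc.Mg.G136
import Pool.Agent.Lib.MP_a9445a_lc.BE.Fin

/-! The theorem. -/

set_option autoImplicit false

open Finset

namespace Pool.Agent.MPa9445a.GL

open Pool.Agent.MPa9445a.BE hiding rb
open Pool.Agent.MPa9445a.SN (rb)

theorem Dj_input {n : ℕ} (K : ℕ) (G : SimpleGraph (Fin n)) (ρ : Fin ((n + 2) ^ K) → Bool) :
    Dj K (n, arrG G, rb ρ) := by
  refine ⟨?_, ?_, ?_, ?_⟩
  · show (arrG G).length ≤ n * n
    unfold arrG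
    rw [List.length_map, List.length_range]
  · show ∀ x ∈ arrG G, |x| ≤ 1
    intro x hx
    unfold arrG at hx
    rw [List.mem_map] at hx
    obtain ⟨y, _, rfl⟩ := hx
    split_ifs <;> simp
  · show (rb ρ).length ≤ (n + 2) ^ K
    unfold SN.rb
    rw [List.length_ofFn]
  · show ∀ x ∈ rb ρ, |x| ≤ 1
    intro x hx
    unfold SN.rb at hx
    rw [List.mem_ofFn] at hx
    obtain ⟨i, rfl⟩ := hx
    cases ρ i <;> simp

/-- PROOF. `Zn n ≤ 16 (n+2)^2`, `RL n` is a polynomial, `K ≤ 2 ^ K ≤ (n + 2) ^ K`. -/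
theorem Lk_le (n K : ℕ) : Lk n K ≤ (n + 2) ^ (K + 20) := by
  have hR : RL n ≤ (n + 2) ^ 10 := by
    have h1 : RL n = 2 * (n * (3 * n + 6 + 1)) + n * n + 32 * (n + 5) * n := rfl
    rw [h1]
    have h2 : (2 : ℕ) ^ 8 ≤ (n + 2) ^ 8 := Nat.pow_le_pow_left (by omega) 8
    have h3 : (n + 2) ^ 10 = (n + 2) ^ 8 * (n + 2) ^ 2 := by ring
    rw [h3]
    calc 2 * (n * (3 * n + 6 + 1)) + n * n + 32 * (n + 5) * n ≤ 2 ^ 8 * (n + 2) ^ 2 := by nlinarith
      _ ≤ (n + 2) ^ 8 * (n + 2) ^ 2 := Nat.mul_le_mul_right _ h2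
  have hZ : Zn n ≤ (n + 2) ^ 10 := by
    have h1 : Zn n = 2 * n ^ 2 + 8 * n + 16 := rfl
    rw [h1]
    have h2 : (2 : ℕ) ^ 8 ≤ (n + 2) ^ 8 := Nat.pow_le_pow_left (by omega) 8
    have h3 : (n + 2) ^ 10 = (n + 2) ^ 8 * (n + 2) ^ 2 := by ring
    rw [h3]
    calc 2 * n ^ 2 + 8 * n + 16 ≤ 2 ^ 8 * (n + 2) ^ 2 := by nlinarith
      _ ≤ (n + 2) ^ 8 * (n + 2) ^ 2 := Nat.mul_le_mul_right _ h2
  have hK : K ≤ (n + 2) ^ K := (Nat.lt_pow_self (by omega)).le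
  unfold Lk
  calc K * Zn n * RL n ≤ (n + 2) ^ K * (n + 2) ^ 10 * (n + 2) ^ 10 :=
        Nat.mul_le_mul (Nat.mul_le_mul hK hZ) hR
    _ = (n + 2) ^ (K + 20) := by ring

open scoped Classical in
/-- Almost all arrays of random bits are fast for all graphs. -/
theorem fast2 {n k b M : ℕ} (hM : Lk n (k + 1) ≤ M)
    (hb : (pl n (k + 1) : ℝ) * γ (k + 1) ^ n ≤ 2 ^ b) :
    (univ.filter fun ρ : Fin M → Bool => ∃ G : SimpleGraph (Fin n),
      slow n (arrG G) (rb (res hM ρ)) k b).card * 2 ^ (n ^ 2 + n + 15) ≤ (k + 2) * 2 ^ M := by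
  have h0 := fast_all (n := n) (k := k) (b := b) (fun G => arrG G) (fun G => fm_arrG G) hb
  have h1 := card_res hM fun ρ : Fin (Lk n (k + 1)) → Bool =>
    ∃ G : SimpleGraph (Fin n), slow n (arrG G) (rb ρ) k b
  generalize Lk n (k + 1) = L at *
  set x := (univ.filter fun ρ : Fin M → Bool => ∃ G : SimpleGraph (Fin n),
    slow n (arrG G) (rb (res hM ρ)) k b).card with hx
  set y := (univ.filter fun ρ : Fin L → Bool =>
    ∃ G : SimpleGraph (Fin n), slow n (arrG G) (rb ρ) k b).card with hy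
  have h2 : x * 2 ^ L = y * 2 ^ M := by
    rw [hx, hy]
    convert h1
  refine Nat.le_of_mul_le_mul_right (c := 2 ^ L) ?_ (by positivity)
  calc x * 2 ^ (n ^ 2 + n + 15) * 2 ^ L = (x * 2 ^ L) * 2 ^ (n ^ 2 + n + 15) := by ring
    _ = (y * 2 ^ (n ^ 2 + n + 15)) * 2 ^ M := by rw [h2]; ring
    _ ≤ ((k + 2) * 2 ^ L) * 2 ^ M := Nat.mul_le_mul_right _ h0
    _ = _ := by ring

open scoped Classical in
/-- The main theorem. -/
theorem main_thm {c : ℝ} (hc : Real.logb 2 Real.goldenRatio < c) :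
    ∃ (e : GD.Ex [.int, .arr, .arr] .arr) (K : ℕ) (C : ℝ),
      (∀ n, Even n → ∀ (G : SimpleGraph (Fin n)) (ρ : Fin ((n + 2) ^ K) → Bool),
        IsMinBisection G (univ.filter fun v : Fin n =>
          nth (e.eval ((n : ℤ), arrG G, rb ρ, ())) (v : ℕ) = 1)) ∧
      (∀ n, (univ.filter fun ρ : Fin ((n + 2) ^ K) → Bool =>
        ¬ ∀ (G : SimpleGraph (Fin n)) (τ : ℝ), 2 ≤ τ →
          e.cost τ ((n : ℤ), arrG G, rb ρ, ()) ≤ C * 2 ^ (c * n)).card * 2 ^ n ^ 2 ≤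
            2 ^ (n + 2) ^ K) ∧
      ∀ (n : ℕ) (G : SimpleGraph (Fin n)) (τ : ℝ), 2 ≤ τ →
        ∑ ρ : Fin ((n + 2) ^ K) → Bool, e.cost τ ((n : ℤ), arrG G, rb ρ, ()) ≤
          C * 2 ^ (c * n) * 2 ^ (n + 2) ^ K := by
  obtain ⟨k, P, Q, c₁, hQ, hb, hd⟩ := budget hc
  obtain ⟨K, hK⟩ : ∃ K : ℕ, ∀ n, Lk n (k + 1) ≤ (n + 2) ^ K := ⟨k + 1 + 20, fun n => Lk_le n (k + 1)⟩
  obtain ⟨e, d, he⟩ := program2 k P Q c₁ K
  obtain ⟨C₀, hC₀⟩ := hd d
  have he' : ∀ (n : ℕ) (G : SimpleGraph (Fin n)) (ρ : Fin ((n + 2) ^ K) → Bool),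
      e.eval ((n : ℤ), arrG G, rb ρ, ()) =
        out n (arrG G) (rb (res (hK n) ρ)) k (be P Q c₁ n) ∧
      ∀ τ : ℝ, 2 ≤ τ → e.cost τ ((n : ℤ), arrG G, rb ρ, ()) ≤ ((n : ℝ) + 2) ^ d *
        (2 ^ be P Q c₁ n +
          if slow n (arrG G) (rb (res (hK n) ρ)) k (be P Q c₁ n) then 2 ^ n else 0) := by
    intro n G ρ
    have h1 := he (n, arrG G, rb ρ) (Dj_input K G ρ)
    rw [← tb_rb (hK n) ρ]
    exact h1
  have hC0 : 0 ≤ C₀ := by
    have h1 := hC₀ 0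
    simp only [Nat.cast_zero, mul_zero, Real.rpow_zero, mul_one] at h1
    exact le_trans (by positivity) h1
  have hc0 : 0 < c := lt_of_lt_of_le (Real.logb_pos (by norm_num) Real.one_lt_goldenRatio) hc.le
  have h2c : ∀ n : ℕ, (1 : ℝ) ≤ 2 ^ (c * n) := fun n =>
    Real.one_le_rpow (by norm_num) (by positivity)
  have hd2 : ∀ n : ℕ, ((n : ℝ) + 2) ^ d ≤ C₀ * 2 ^ (c * n) := by
    intro n
    refine le_trans ?_ (hC₀ n)
    have h1 : (1 : ℝ) ≤ 2 ^ (P * n / Q + c₁) := one_le_pow₀ (by norm_num)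
    have h2 : (0 : ℝ) ≤ ((n : ℝ) + 2) ^ d := by positivity
    nlinarith
  -- the bound for a slow run
  have hsl : ∀ n : ℕ, ((n : ℝ) + 2) ^ d * 2 ^ n * (k + 2) ≤
      (k + 2) * C₀ * 2 ^ (c * n) * 2 ^ (n ^ 2 + n + 15) := by
    intro n
    have h1 : (2 : ℝ) ^ n ≤ 2 ^ (n ^ 2 + n + 15) := pow_le_pow_right₀ (by norm_num) (by omega)
    have h2 := hd2 n
    have h3 : ((n : ℝ) + 2) ^ d * 2 ^ n ≤ C₀ * 2 ^ (c * n) * 2 ^ (n ^ 2 + n + 15) :=
      mul_le_mul h2 h1 (by positivity) (le_trans (by positivity) h2)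
    have h4 : (0 : ℝ) ≤ k + 2 := by positivity
    calc ((n : ℝ) + 2) ^ d * 2 ^ n * (k + 2) ≤
        C₀ * 2 ^ (c * n) * 2 ^ (n ^ 2 + n + 15) * (k + 2) := mul_le_mul_of_nonneg_right h3 h4
      _ = _ := by ring
  -- small n
  obtain ⟨C₂, hC₂0, hC₂⟩ : ∃ C₂ : ℝ, 0 ≤ C₂ ∧ ∀ n : ℕ, 2 ^ (n + 15) < k + 2 →
      ((n : ℝ) + 2) ^ d * (2 ^ be P Q c₁ n + 2 ^ n) ≤ C₂ := by
    refine ⟨∑ n ∈ range (k + 2), ((n : ℝ) + 2) ^ d * (2 ^ be P Q c₁ n + 2 ^ n), ?_, ?_⟩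
    · exact Finset.sum_nonneg fun _ _ => by positivity
    · intro n hn
      have h1 : n < k + 2 := lt_of_lt_of_le (Nat.lt_two_pow_self.trans_le
        (Nat.pow_le_pow_right (by norm_num) (Nat.le_add_right n 15))) hn.le
      exact Finset.single_le_sum (f := fun n : ℕ => ((n : ℝ) + 2) ^ d * (2 ^ be P Q c₁ n + 2 ^ n))
        (fun _ _ => by positivity) (Finset.mem_range.2 h1)
  refine ⟨e, K, (k + 3) * C₀ + C₂, ?_, ?_, ?_⟩
  · intro n hn G ρ
    have h1 := out_correct hn G (fm_arrG G) (rb (res (hK n) ρ)) k (be P Q c₁ n)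
    have h2 : e.eval ((n : ℤ), arrG G, rb ρ, ()) = out n (arrG G) (rb (res (hK n) ρ)) k (be P Q c₁ n) :=
      (he' n G ρ).1
    rw [h2]
    have h3 : (univ.filter fun v : Fin n => nth (out n (arrG G) (rb (res (hK n) ρ)) k (be P Q c₁ n)) (v : ℕ) = 1) =
        univ.filter fun v : Fin n => gt (out n (arrG G) (rb (res (hK n) ρ)) k (be P Q c₁ n)) v = 1 := by
      refine Finset.filter_congr fun v _ => ?_
      rw [nth_nat]
    rw [h3]
    exact h1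
  · intro n
    have hC : (0 : ℝ) ≤ (k + 3) * C₀ + C₂ := by positivity
    by_cases hk : 2 ^ (n + 15) < k + 2
    · have h1 : (univ.filter fun ρ : Fin ((n + 2) ^ K) → Bool => ¬ ∀ (G : SimpleGraph (Fin n)) (τ : ℝ),
          2 ≤ τ → e.cost τ ((n : ℤ), arrG G, rb ρ, ()) ≤ ((k + 3) * C₀ + C₂) * 2 ^ (c * n)) = ∅ := by
        refine Finset.filter_false_of_mem fun ρ _ => not_not.2 fun G τ hτ => ?_
        refine ((he' n G ρ).2 τ hτ).trans ?_
        have h2 := hC₂ n hk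
        have h3 : ((n : ℝ) + 2) ^ d * (2 ^ be P Q c₁ n +
            if slow n (arrG G) (rb (res (hK n) ρ)) k (be P Q c₁ n) then 2 ^ n else 0) ≤
            ((n : ℝ) + 2) ^ d * (2 ^ be P Q c₁ n + 2 ^ n) := by
          refine mul_le_mul_of_nonneg_left ?_ (by positivity)
          split_ifs
          · exact le_rfl
          · have : (0 : ℝ) ≤ 2 ^ n := by positivity
            linarith
        refine h3.trans (h2.trans ?_)
        have h4 := h2c n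
        have h5 : (0 : ℝ) ≤ (k + 3) * C₀ := by positivity
        nlinarith
      rw [h1, Finset.card_empty, zero_mul]
      exact Nat.zero_le _
    · have h0 := fast2 (n := n) (k := k) (b := be P Q c₁ n) (hK n) (hb n)
      have h1 : (univ.filter fun ρ : Fin ((n + 2) ^ K) → Bool => ¬ ∀ (G : SimpleGraph (Fin n)) (τ : ℝ),
          2 ≤ τ → e.cost τ ((n : ℤ), arrG G, rb ρ, ()) ≤ ((k + 3) * C₀ + C₂) * 2 ^ (c * n)).card ≤
          (univ.filter fun ρ : Fin ((n + 2) ^ K) → Bool =>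
            ∃ G : SimpleGraph (Fin n), slow n (arrG G) (rb (res (hK n) ρ)) k (be P Q c₁ n)).card := by
        refine Finset.card_le_card fun ρ hρ => ?_
        rw [Finset.mem_filter] at hρ ⊢
        refine ⟨Finset.mem_univ _, ?_⟩
        by_contra hns
        push Not at hns
        refine hρ.2 fun G τ hτ => ?_
        refine ((he' n G ρ).2 τ hτ).trans ?_
        rw [if_neg (hns G), add_zero]
        refine (hC₀ n).trans ?_
        have h4 : (0 : ℝ) < 2 ^ (c * n) := by positivity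
        refine mul_le_mul_of_nonneg_right ?_ h4.le
        have h5 : (0 : ℝ) ≤ (k + 2) * C₀ := by positivity
        linarith
      have h2 : k + 2 ≤ 2 ^ (n + 15) := Nat.not_lt.1 hk
      have h3 := (Nat.mul_le_mul_right (2 ^ (n ^ 2 + n + 15)) h1).trans
        (h0.trans (Nat.mul_le_mul_right (2 ^ (n + 2) ^ K) h2))
      have h4 : 2 ^ (n ^ 2 + n + 15) = 2 ^ (n ^ 2) * 2 ^ (n + 15) := by rw [← pow_add, add_assoc]
      rw [h4, ← mul_assoc, mul_comm (2 ^ (n + 15)) (2 ^ (n + 2) ^ K)] at h3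
      exact Nat.le_of_mul_le_mul_right h3 (by positivity)
  · intro n G τ hτ
    have h0 := fast2 (n := n) (k := k) (b := be P Q c₁ n) (hK n) (hb n)
    set F : Finset (Fin ((n + 2) ^ K) → Bool) := univ.filter fun ρ : Fin ((n + 2) ^ K) → Bool =>
      ∃ G : SimpleGraph (Fin n), slow n (arrG G) (rb (res (hK n) ρ)) k (be P Q c₁ n) with hF
    have h1 : ∀ ρ : Fin ((n + 2) ^ K) → Bool, e.cost τ ((n : ℤ), arrG G, rb ρ, ()) ≤
        C₀ * 2 ^ (c * n) + if ρ ∈ F then ((n : ℝ) + 2) ^ d * 2 ^ n else 0 := by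
      intro ρ
      refine ((he' n G ρ).2 τ hτ).trans ?_
      rw [mul_add]
      refine add_le_add (hC₀ n) ?_
      by_cases hs : slow n (arrG G) (rb (res (hK n) ρ)) k (be P Q c₁ n)
      · rw [if_pos hs, if_pos (by rw [hF, Finset.mem_filter]; exact ⟨Finset.mem_univ _, G, hs⟩)]
      · rw [if_neg hs, mul_zero]
        split_ifs
        · positivity
        · exact le_rfl
    have h2 : ∑ ρ : Fin ((n + 2) ^ K) → Bool, e.cost τ ((n : ℤ), arrG G, rb ρ, ()) ≤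
        2 ^ (n + 2) ^ K * (C₀ * 2 ^ (c * n)) + F.card * (((n : ℝ) + 2) ^ d * 2 ^ n) := by
      refine (Finset.sum_le_sum fun ρ _ => h1 ρ).trans (le_of_eq ?_)
      rw [Finset.sum_add_distrib, Finset.sum_const, Finset.card_univ, Fintype.card_fun,
        Fintype.card_bool, Fintype.card_fin, nsmul_eq_mul, ← Finset.sum_filter, Finset.sum_const,
        nsmul_eq_mul, Finset.filter_mem_eq_inter, Finset.univ_inter]
      push_cast
      ring
    have h3 : (F.card : ℝ) * 2 ^ (n ^ 2 + n + 15) ≤ (k + 2) * 2 ^ (n + 2) ^ K := by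
      exact_mod_cast h0
    have h4 := hsl n
    have h5 : (F.card : ℝ) * (((n : ℝ) + 2) ^ d * 2 ^ n) ≤
        (k + 2) * C₀ * 2 ^ (c * n) * 2 ^ (n + 2) ^ K := by
      have hX : (0 : ℝ) < 2 ^ (n ^ 2 + n + 15) := by positivity
      have hY : (0 : ℝ) < (k : ℝ) + 2 := by positivity
      have h6 : ((n : ℝ) + 2) ^ d * 2 ^ n ≤ C₀ * 2 ^ (c * n) * 2 ^ (n ^ 2 + n + 15) := by
        have h7 : ((n : ℝ) + 2) ^ d * 2 ^ n * (k + 2) ≤
            C₀ * 2 ^ (c * n) * 2 ^ (n ^ 2 + n + 15) * (k + 2) := by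
          refine h4.trans (le_of_eq (by ring))
        exact le_of_mul_le_mul_right h7 hY
      calc (F.card : ℝ) * (((n : ℝ) + 2) ^ d * 2 ^ n) ≤
          F.card * (C₀ * 2 ^ (c * n) * 2 ^ (n ^ 2 + n + 15)) :=
            mul_le_mul_of_nonneg_left h6 (Nat.cast_nonneg _)
        _ = C₀ * 2 ^ (c * n) * (F.card * 2 ^ (n ^ 2 + n + 15)) := by ring
        _ ≤ C₀ * 2 ^ (c * n) * ((k + 2) * 2 ^ (n + 2) ^ K) :=
            mul_le_mul_of_nonneg_left h3 (by positivity)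
        _ = _ := by ring
    refine h2.trans ?_
    have h6 : (0 : ℝ) ≤ C₂ * 2 ^ (c * n) * 2 ^ (n + 2) ^ K := by positivity
    calc (2 : ℝ) ^ (n + 2) ^ K * (C₀ * 2 ^ (c * n)) + F.card * (((n : ℝ) + 2) ^ d * 2 ^ n) ≤
        2 ^ (n + 2) ^ K * (C₀ * 2 ^ (c * n)) + (k + 2) * C₀ * 2 ^ (c * n) * 2 ^ (n + 2) ^ K +
          C₂ * 2 ^ (c * n) * 2 ^ (n + 2) ^ K := by linarith
      _ = ((k + 3) * C₀ + C₂) * 2 ^ (c * n) * 2 ^ (n + 2) ^ K := by ring

end Pool.Agent.MPa9445a.GL
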